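import Pool.Agent.BroadcastIrr

set_option autoImplicit false

/-!
# Broadcast irredundance and broadcast domination: at most three vertices of positive value
-/

set_option linter.unusedSectionVars false

namespace Pool.Agent.Results.MP_e7e1e7_co.FewCentres

open Finset Pool.Agent.BroadcastIrr

variable {V : Type} [Fintype V] [DecidableEq V]

/-- Three balls around a common hub `h` lie in one ball. -/
theorem tripod {G : SimpleGraph V} (hG : G.Connected) (h c1 c2 c3 : V) (r1 r2 r3 R : ℕ)
    (q1 : r1 ≤ R) (q2 : r2 ≤ R) (q3 : r3 ≤ R)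
    (h12 : (G.dist h c1 + r1) + (G.dist h c2 + r2) ≤ 2 * R)
    (h13 : (G.dist h c1 + r1) + (G.dist h c3 + r3) ≤ 2 * R)
    (h23 : (G.dist h c2 + r2) + (G.dist h c3 + r3) ≤ 2 * R) :
    ∃ z, (∀ b, G.dist b c1 ≤ r1 → G.dist b z ≤ R) ∧ (∀ b, G.dist b c2 ≤ r2 → G.dist b z ≤ R) ∧
      (∀ b, G.dist b c3 ≤ r3 → G.dist b z ≤ R) ∧
      ∀ s b, G.dist b h ≤ s → s ≤ R → s + (G.dist h c1 + r1) ≤ 2 * R →
        s + (G.dist h c2 + r2) ≤ 2 * R → s + (G.dist h c3 + r3) ≤ 2 * R → G.dist b z ≤ R := by
  have tr : ∀ a b c : V, G.dist a c ≤ G.dist a b + G.dist b c := fun a b c => hG.dist_triangle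
  have cm : ∀ a b : V, G.dist a b = G.dist b a := fun a b => SimpleGraph.dist_comm
  -- walking from the hub towards `c` by `L - R`
  have key : ∀ c r, r ≤ R → R < G.dist h c + r → ∃ z, G.dist h z ≤ G.dist h c + r - R ∧
      G.dist c z + r ≤ R := by
    intro c r hr hL
    obtain ⟨z, hz1, hz2⟩ := between hG h c (min (G.dist h c + r - R) (G.dist h c)) (min_le_right _ _)
    refine ⟨z, by rw [hz1]; exact min_le_left _ _, ?_⟩
    rw [cm c z, hz2]
    rcases le_total (G.dist h c + r - R) (G.dist h c) with h1 | h1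
    · rw [min_eq_left h1]; omega
    · rw [min_eq_right h1]; omega
  by_cases k1 : R < G.dist h c1 + r1
  · obtain ⟨z, hz1, hz2⟩ := key c1 r1 q1 k1
    refine ⟨z, fun b hb => ?_, fun b hb => ?_, fun b hb => ?_, fun s b hb e0 e1 e2 e3 => ?_⟩
    · have := tr b c1 z; omega
    · have t1 := tr b c2 z; have t2 := tr c2 h z; have t3 := cm c2 h; omega
    · have t1 := tr b c3 z; have t2 := tr c3 h z; have t3 := cm c3 h; omega
    · have t1 := tr b h z; omega
  · by_cases k2 : R < G.dist h c2 + r2
    · obtain ⟨z, hz1, hz2⟩ := key c2 r2 q2 k2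
      refine ⟨z, fun b hb => ?_, fun b hb => ?_, fun b hb => ?_, fun s b hb e0 e1 e2 e3 => ?_⟩
      · have t1 := tr b c1 z; have t2 := tr c1 h z; have t3 := cm c1 h; omega
      · have := tr b c2 z; omega
      · have t1 := tr b c3 z; have t2 := tr c3 h z; have t3 := cm c3 h; omega
      · have t1 := tr b h z; omega
    · by_cases k3 : R < G.dist h c3 + r3
      · obtain ⟨z, hz1, hz2⟩ := key c3 r3 q3 k3
        refine ⟨z, fun b hb => ?_, fun b hb => ?_, fun b hb => ?_, fun s b hb e0 e1 e2 e3 => ?_⟩
        · have t1 := tr b c1 z; have t2 := tr c1 h z; have t3 := cm c1 h; omega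
        · have t1 := tr b c2 z; have t2 := tr c2 h z; have t3 := cm c2 h; omega
        · have := tr b c3 z; omega
        · have t1 := tr b h z; omega
      · refine ⟨h, fun b hb => ?_, fun b hb => ?_, fun b hb => ?_, fun s b hb e0 e1 e2 e3 => ?_⟩
        · have t1 := tr b c1 h; have t3 := cm c1 h; omega
        · have t1 := tr b c2 h; have t3 := cm c2 h; omega
        · have t1 := tr b c3 h; have t3 := cm c3 h; omega
        · omega

/-- Replacing the values on `M` by one value. -/
theorem merge {G : SimpleGraph V} (hG : G.Connected) [Nontrivial V] {f : V → ℕ} (M : Finset V)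
    (z : V) (R : ℕ) (hR : 0 < R) (hRM : R ≤ ∑ x ∈ M, f x)
    (h : ∀ b, G.dist b z ≤ R ∨ ∃ y, y ∉ M ∧ 0 < f y ∧ G.dist b y ≤ f y) : gammaB G ≤ cost f := by
  have h1 := gammaB_le hG (fun x => (if x ∈ M then 0 else f x) + (if x = z then R else 0)) (fun b => by
    rcases h b with hb | ⟨y, hyM, hy, hb⟩
    · refine ⟨z, ?_, ?_⟩
      · simp only [if_true]; omega
      · simp only [if_true]; omega
    · refine ⟨y, ?_, ?_⟩
      · simp only [if_neg hyM]; omega
      · simp only [if_neg hyM]; omega)
  refine h1.trans ?_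
  unfold cost
  rw [sum_add_distrib]
  have e1 : ∑ x, (if x = z then R else 0) = R := by simp
  have e2 : ∑ x, (if x ∈ M then 0 else f x) + ∑ x ∈ M, f x = ∑ x, f x := by
    have e3 : ∑ x, (if x ∈ M then f x else 0) = ∑ x ∈ M, f x := by simp
    rw [← e3, ← sum_add_distrib]
    refine sum_congr rfl fun x _ => ?_
    by_cases hx : x ∈ M
    · simp [hx]
    · simp [hx]
  omega

/-- `w` is equal or adjacent to every vertex of the private boundary of `a`. -/
def S (G : SimpleGraph V) (f : V → ℕ) (a w : V) : Prop := ∀ x ∈ PB G f a, G.dist x w ≤ 1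

theorem quad {G : SimpleGraph V} (f : V → ℕ) (x u : V) :
    Und G f x ∨ (∃ y, y ≠ u ∧ 0 < f y ∧ G.dist x y ≤ f y) ∨
    G.dist x u ≤ f u - 1 ∨ x ∈ PB G f u := by
  by_cases h0 : Und G f x
  · exact Or.inl h0
  by_cases h1 : ∃ y, y ≠ u ∧ 0 < f y ∧ G.dist x y ≤ f y
  · exact Or.inr (Or.inl h1)
  by_cases h2 : G.dist x u ≤ f u - 1
  · exact Or.inr (Or.inr (Or.inl h2))
  refine Or.inr (Or.inr (Or.inr ⟨?_, ?_⟩))
  · obtain ⟨y, hy, hy'⟩ := not_not.1 h0
    by_cases e : y = u
    · rw [e] at hy'; exact hy'
    · exact absurd ⟨y, e, hy, hy'⟩ h1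
  · rintro ⟨y, hy, hy'⟩
    by_cases e : y = u
    · rw [e, Function.update_self] at hy'; exact h2 hy'
    · rw [Function.update_of_ne e] at hy hy'
      exact h1 ⟨y, e, hy, hy'⟩

theorem joint {G : SimpleGraph V} (hG : G.Connected) {f : V → ℕ} {a b y : V} (hab : a ≠ b)
    (ha : 0 < f a) (hy : y ∈ PB G f b) (hPB : G.dist y a ≤ f a + 1) :
    ∃ b1, G.dist b1 a = f a ∧ G.dist b1 y = 1 ∧
      (G.dist b1 b ≤ f b ∨ b1 ∈ PB G f a ∨ ∃ c, c ≠ a ∧ c ≠ b ∧ 0 < f c ∧ G.dist b1 c ≤ f c) := by
  have cm : ∀ a b : V, G.dist a b = G.dist b a := fun a b => SimpleGraph.dist_comm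
  have h1 : ¬ G.dist y a ≤ f a := fun h => hy.2 ⟨a, by rw [Function.update_of_ne hab]; exact ha,
    by rw [Function.update_of_ne hab]; exact h⟩
  have h2 : G.dist a y = f a + 1 := by have := cm a y; omega
  obtain ⟨b1, e1, e2⟩ := between hG a y (f a) (by omega)
  have e3 := cm a b1
  refine ⟨b1, by omega, by omega, ?_⟩
  rcases quad (G := G) f b1 a with h | ⟨c, hc, hc1, hc2⟩ | h | h
  · exact (h ⟨a, ha, by omega⟩).elim
  · by_cases e : c = b
    · rw [e] at hc2; exact Or.inl hc2
    · exact Or.inr (Or.inr ⟨c, hc, e, hc1, hc2⟩)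
  · omega
  · exact Or.inr (Or.inl h)

theorem triple_sum {f : V → ℕ} {a b c : V} (hab : a ≠ b) (hac : a ≠ c) (hbc : b ≠ c) :
    ∑ x ∈ ({a, b, c} : Finset V), f x = f a + f b + f c := by
  rw [sum_insert (by simp [hab, hac]), sum_pair hbc, add_assoc]

/-- Three vertices of positive value whose enlarged balls meet and which see all vertices that hear
nothing. -/
theorem hub3 {G : SimpleGraph V} (hG : G.Connected) [Nontrivial V] {f : V → ℕ}
    (hf : MaxIrredundant G f) (h2 : ∀ x, 0 < f x → 2 ≤ f x) {a b c h : V}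
    (hab : a ≠ b) (hac : a ≠ c) (hbc : b ≠ c) (ha : 0 < f a) (hb : 0 < f b) (hc : 0 < f c)
    (hF : ∀ w, Und G f w → S G f a w ∨ S G f b w ∨ S G f c w)
    (ka : G.dist h a ≤ f a + 1) (kb : G.dist h b ≤ f b + 1) (kc : G.dist h c ≤ f c + 1) :
    gammaB G ≤ cost f := by
  have ha2 := h2 a ha
  have hb2 := h2 b hb
  have hc2 := h2 c hc
  obtain ⟨z, z1, z2, z3, -⟩ := tripod hG h a b c (f a + 1) (f b + 1) (f c + 1) (f a + f b + f c)
    (by omega) (by omega) (by omega) (by omega) (by omega) (by omega)
  have hd : ∀ p w, 0 < f p → Und G f w → S G f p w → G.dist w p ≤ f p + 1 := by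
    intro p w hp hw hs
    obtain ⟨x0, hx0⟩ := hf.2.1 p hp
    have h5 := dist_und hG hp hw hx0 (hs x0 hx0)
    have h6 : G.dist w p = G.dist p w := SimpleGraph.dist_comm
    omega
  refine merge hG {a, b, c} z (f a + f b + f c) (by omega) (by rw [triple_sum hab hac hbc]) ?_
  intro x
  by_cases hx : Und G f x
  · rcases hF x hx with h' | h' | h'
    · exact Or.inl (z1 x (hd a x ha hx h'))
    · exact Or.inl (z2 x (hd b x hb hx h'))
    · exact Or.inl (z3 x (hd c x hc hx h'))
  · obtain ⟨y, hy, hy'⟩ := not_not.1 hx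
    by_cases e1 : y = a
    · rw [e1] at hy'; exact Or.inl (z1 x (by omega))
    by_cases e2 : y = b
    · rw [e2] at hy'; exact Or.inl (z2 x (by omega))
    by_cases e3 : y = c
    · rw [e3] at hy'; exact Or.inl (z3 x (by omega))
    exact Or.inr ⟨y, by simp [e1, e2, e3], hy, hy'⟩

/-- Two vertices `a`, `b` of positive value see all vertices that hear nothing, and the private boundary
of `b` lies in the enlarged ball of `a`. -/
theorem two_cover {G : SimpleGraph V} (hG : G.Connected) [Nontrivial V] {f : V → ℕ}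
    (hf : MaxIrredundant G f) (h2 : ∀ x, 0 < f x → 2 ≤ f x)
    {a b wb : V} (hab : a ≠ b) (ha : 0 < f a) (hb : 0 < f b)
    (hF : ∀ w, Und G f w → S G f a w ∨ S G f b w) (hwb : S G f b wb)
    (hPB : ∀ y ∈ PB G f b, G.dist y a ≤ f a + 1) : gammaB G ≤ cost f := by
  have tr : ∀ a b c : V, G.dist a c ≤ G.dist a b + G.dist b c := fun a b c => hG.dist_triangle
  have cm : ∀ a b : V, G.dist a b = G.dist b a := fun a b => SimpleGraph.dist_comm
  have ha2 := h2 a ha
  have hb2 := h2 b hb
  obtain ⟨x0, hx0⟩ := hf.2.1 a ha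
  obtain ⟨y, hy⟩ := hf.2.1 b hb
  have hda : ∀ w, Und G f w → S G f a w → G.dist w a ≤ f a + 1 := fun w hw hs => by
    have h5 := dist_und hG ha hw hx0 (hs x0 hx0)
    have h6 := cm w a
    omega
  obtain ⟨b1, e1, e2, hcase⟩ := joint hG hab ha hy (hPB y hy)
  have hyb : G.dist y b ≤ f b := hy.1
  have e0 : G.dist b1 b1 = 0 := SimpleGraph.dist_self
  have ed : G.dist b1 b ≤ f b + 1 := by have := tr b1 y b; omega
  have cls : ∀ x, (Und G f x ∧ S G f a x) ∨ (Und G f x ∧ S G f b x) ∨ G.dist x a ≤ f a ∨
      G.dist x b ≤ f b - 1 ∨ x ∈ PB G f b ∨ ∃ c, c ≠ a ∧ c ≠ b ∧ 0 < f c ∧ G.dist x c ≤ f c := by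
    intro x
    rcases quad (G := G) f x b with h | ⟨c, hc, hc1, hc2⟩ | h | h
    · rcases hF x h with h' | h'
      · exact Or.inl ⟨h, h'⟩
      · exact Or.inr (Or.inl ⟨h, h'⟩)
    · by_cases e : c = a
      · rw [e] at hc2; exact Or.inr (Or.inr (Or.inl hc2))
      · exact Or.inr (Or.inr (Or.inr (Or.inr (Or.inr ⟨c, e, hc, hc1, hc2⟩))))
    · exact Or.inr (Or.inr (Or.inr (Or.inl h)))
    · exact Or.inr (Or.inr (Or.inr (Or.inr (Or.inl h))))
  rcases hcase with h | h | ⟨c, hca, hcb, hc, hcd⟩
  · obtain ⟨z, z1, z2, -, z4⟩ := tripod hG b1 a b b1 (f a + 1) (f b - 1) 0 (f a + f b)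
      (by omega) (by omega) (by omega) (by omega) (by omega) (by omega)
    refine merge hG {a, b} z (f a + f b) (by omega) (by rw [sum_pair hab]) ?_
    intro x
    rcases cls x with ⟨h3, h4⟩ | ⟨h3, h4⟩ | h3 | h3 | h3 | ⟨c, k1, k2, k3, k4⟩
    · exact Or.inl (z1 x (hda x h3 h4))
    · left
      have t1 := h4 y hy
      have t2 := tr x y b1
      have t3 := cm x y
      have t4 := cm y b1
      exact z4 2 x (by omega) (by omega) (by omega) (by omega) (by omega)
    · exact Or.inl (z1 x (by omega))
    · exact Or.inl (z2 x h3)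
    · exact Or.inl (z1 x (hPB x h3))
    · exact Or.inr ⟨c, by simp [k1, k2], k3, k4⟩
  · obtain ⟨z, z1, z2, -, z4⟩ := tripod hG b1 a b b1 (f a) (f b - 1) 0 (f a + f b)
      (by omega) (by omega) (by omega) (by omega) (by omega) (by omega)
    refine merge hG {a, b} z (f a + f b) (by omega) (by rw [sum_pair hab]) ?_
    intro x
    rcases cls x with ⟨h3, h4⟩ | ⟨h3, h4⟩ | h3 | h3 | h3 | ⟨c, k1, k2, k3, k4⟩
    · left
      have t1 := h4 b1 h
      have t2 := cm x b1
      exact z4 1 x (by omega) (by omega) (by omega) (by omega) (by omega)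
    · left
      have t1 := h4 y hy
      have t2 := tr x y b1
      have t3 := cm x y
      have t4 := cm y b1
      exact z4 2 x (by omega) (by omega) (by omega) (by omega) (by omega)
    · exact Or.inl (z1 x (by omega))
    · exact Or.inl (z2 x h3)
    · left
      have t1 := hwb x h3
      have t2 := hwb y hy
      have t3 := tr x wb b1
      have t4 := tr wb y b1
      have t5 := cm y b1
      have t6 := cm wb y
      exact z4 3 x (by omega) (by omega) (by omega) (by omega) (by omega)
    · exact Or.inr ⟨c, by simp [k1, k2], k3, k4⟩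
  · exact hub3 hG hf h2 (h := b1) hab (Ne.symm hca) (Ne.symm hcb) ha hb hc
      (fun w hw => by
        rcases hF w hw with h' | h'
        · exact Or.inl h'
        · exact Or.inr (Or.inl h')) (by omega) (by omega) (by omega)

/-- The only vertices of positive value are `a`, `b`, `c`, each has its own vertex that hears nothing,
and the private boundaries of `b` and `c` lie in the enlarged balls of `a` and `b`. -/
theorem three_path {G : SimpleGraph V} (hG : G.Connected) [Nontrivial V] {f : V → ℕ}
    (hf : MaxIrredundant G f) (h2 : ∀ x, 0 < f x → 2 ≤ f x) {a b c wb wc : V}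
    (hab : a ≠ b) (hac : a ≠ c) (hbc : b ≠ c) (ha : 0 < f a) (hb : 0 < f b) (hc : 0 < f c)
    (hS : ∀ x, 0 < f x → x = a ∨ x = b ∨ x = c)
    (hF : ∀ w, Und G f w → S G f a w ∨ S G f b w ∨ S G f c w)
    (hwb : S G f b wb) (hwc : S G f c wc)
    (hPB : ∀ y ∈ PB G f b, G.dist y a ≤ f a + 1)
    (hPC : ∀ y ∈ PB G f c, G.dist y b ≤ f b + 1) : gammaB G ≤ cost f := by
  have tr : ∀ a b c : V, G.dist a c ≤ G.dist a b + G.dist b c := fun a b c => hG.dist_triangle
  have cm : ∀ a b : V, G.dist a b = G.dist b a := fun a b => SimpleGraph.dist_comm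
  have ha2 := h2 a ha
  have hb2 := h2 b hb
  have hc2 := h2 c hc
  obtain ⟨y, hy⟩ := hf.2.1 b hb
  obtain ⟨y', hy'⟩ := hf.2.1 c hc
  have hd : ∀ p w, 0 < f p → Und G f w → S G f p w → G.dist w p ≤ f p + 1 := by
    intro p w hp hw hs
    obtain ⟨x0, hx0⟩ := hf.2.1 p hp
    have h5 := dist_und hG hp hw hx0 (hs x0 hx0)
    have h6 : G.dist w p = G.dist p w := SimpleGraph.dist_comm
    omega
  obtain ⟨b1, e1, e2, hcase1⟩ := joint hG hab ha hy (hPB y hy)
  obtain ⟨b2, e3, e4, hcase2⟩ := joint hG hbc hb hy' (hPC y' hy')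
  have hyb : G.dist y b ≤ f b := hy.1
  have hyc : G.dist y' c ≤ f c := hy'.1
  have hya := hPB y hy
  have hyb' := hPC y' hy'
  have ebb : G.dist b b = 0 := SimpleGraph.dist_self
  have ed1 : G.dist b1 b ≤ f b + 1 := by have := tr b1 y b; omega
  have ed2 : G.dist b2 c ≤ f c + 1 := by have := tr b2 y' c; omega
  have cls : ∀ x, (Und G f x ∧ S G f a x) ∨ (Und G f x ∧ S G f b x) ∨ (Und G f x ∧ S G f c x) ∨
      G.dist x a ≤ f a ∨ G.dist x b ≤ f b ∨ G.dist x c ≤ f c - 1 ∨ x ∈ PB G f c := by
    intro x
    rcases quad (G := G) f x c with h | ⟨p, hp, hp1, hp2⟩ | h | h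
    · rcases hF x h with h' | h' | h'
      · exact Or.inl ⟨h, h'⟩
      · exact Or.inr (Or.inl ⟨h, h'⟩)
      · exact Or.inr (Or.inr (Or.inl ⟨h, h'⟩))
    · rcases hS p hp1 with e | e | e
      · rw [e] at hp2; exact Or.inr (Or.inr (Or.inr (Or.inl hp2)))
      · rw [e] at hp2; exact Or.inr (Or.inr (Or.inr (Or.inr (Or.inl hp2))))
      · exact absurd e hp
    · exact Or.inr (Or.inr (Or.inr (Or.inr (Or.inr (Or.inl h)))))
    · exact Or.inr (Or.inr (Or.inr (Or.inr (Or.inr (Or.inr h)))))
  have fin : ∀ z, (∀ x, G.dist x z ≤ f a + f b + f c) → gammaB G ≤ cost f := fun z hz =>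
    merge hG {a, b, c} z (f a + f b + f c) (by omega) (by rw [triple_sum hab hac hbc])
      (fun x => Or.inl (hz x))
  rcases hcase2 with g | g | ⟨p, hpb, hpc, hp, hpd⟩
  · rcases hcase1 with h | h | ⟨p, hpa, hpb, hp, hpd⟩
    · -- both joints close
      have d1 : G.dist b a ≤ f a + f b := by
        have t1 := tr b b1 a
        have t2 := cm b b1
        omega
      have d2 : G.dist b c ≤ f b + f c := by
        have t1 := tr b b2 c
        have t2 := cm b b2
        omega
      obtain ⟨z, z1, z2, z3, z4⟩ := tripod hG b a b c (f a + 1) (f b + 1) (f c - 1)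
        (f a + f b + f c) (by omega) (by omega) (by omega) (by omega) (by omega) (by omega)
      apply fin z
      intro x
      rcases cls x with ⟨h3, h4⟩ | ⟨h3, h4⟩ | ⟨h3, h4⟩ | h3 | h3 | h3 | h3
      · exact z1 x (hd a x ha h3 h4)
      · exact z2 x (hd b x hb h3 h4)
      · have t1 := h4 y' hy'
        have t2 := tr x y' b
        have t3 := cm x y'
        exact z4 (f b + 2) x (by omega) (by omega) (by omega) (by omega) (by omega)
      · exact z1 x (by omega)
      · exact z2 x (by omega)
      · exact z3 x h3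
      · exact z2 x (hPC x h3)
    · have d1 : G.dist b a ≤ f a + f b + 1 := by
        have t1 := tr b b1 a
        have t2 := cm b b1
        omega
      have d2 : G.dist b c ≤ f b + f c := by
        have t1 := tr b b2 c
        have t2 := cm b b2
        omega
      obtain ⟨z, z1, z2, z3, z4⟩ := tripod hG b a b c (f a) (f b + 1) (f c - 1)
        (f a + f b + f c) (by omega) (by omega) (by omega) (by omega) (by omega) (by omega)
      apply fin z
      intro x
      rcases cls x with ⟨h3, h4⟩ | ⟨h3, h4⟩ | ⟨h3, h4⟩ | h3 | h3 | h3 | h3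
      · have t1 := h4 b1 h
        have t2 := tr x b1 b
        have t3 := cm x b1
        exact z4 (f b + 2) x (by omega) (by omega) (by omega) (by omega) (by omega)
      · exact z2 x (hd b x hb h3 h4)
      · have t1 := h4 y' hy'
        have t2 := tr x y' b
        have t3 := cm x y'
        exact z4 (f b + 2) x (by omega) (by omega) (by omega) (by omega) (by omega)
      · exact z1 x (by omega)
      · exact z2 x (by omega)
      · exact z3 x h3
      · exact z2 x (hPC x h3)
    · have hpe : p = c := by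
        rcases hS p hp with e | e | e
        · exact absurd e hpa
        · exact absurd e hpb
        · exact e
      rw [hpe] at hpd
      exact hub3 hG hf h2 (h := b1) hab hac hbc ha hb hc hF (by omega) (by omega) (by omega)
  · have d3 : G.dist y c ≤ f c + 3 := by
      have t1 := hwb y hy
      have t2 := hwb b2 g
      have t3 := tr y wb c
      have t4 := tr wb b2 c
      have t5 := cm wb b2
      omega
    have d4 : G.dist y' y ≤ 3 := by
      have t1 := hwb y hy
      have t2 := hwb b2 g
      have t3 := tr y' b2 y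
      have t4 := tr b2 wb y
      have t5 := cm wb y
      have t6 := cm y' b2
      omega
    obtain ⟨z, z1, z2, z3, z4⟩ := tripod hG y a b c (f a + 1) (f b) (f c - 1)
      (f a + f b + f c) (by omega) (by omega) (by omega) (by omega) (by omega) (by omega)
    apply fin z
    intro x
    rcases cls x with ⟨h3, h4⟩ | ⟨h3, h4⟩ | ⟨h3, h4⟩ | h3 | h3 | h3 | h3
    · exact z1 x (hd a x ha h3 h4)
    · have t1 := h4 y hy
      have t2 := cm x y
      exact z4 1 x (by omega) (by omega) (by omega) (by omega) (by omega)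
    · have t1 := h4 y' hy'
      have t2 := tr x y' y
      have t3 := cm x y'
      exact z4 4 x (by omega) (by omega) (by omega) (by omega) (by omega)
    · exact z1 x (by omega)
    · exact z2 x h3
    · exact z3 x h3
    · have t1 := hwc x h3
      have t2 := hwc y' hy'
      have t3 := tr x wc y
      have t4 := tr wc y' y
      have t5 := cm wc y'
      exact z4 5 x (by omega) (by omega) (by omega) (by omega) (by omega)
  · have hpe : p = a := by
      rcases hS p hp with e | e | e
      · exact e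
      · exact absurd e hpb
      · exact absurd e hpc
    rw [hpe] at hpd
    exact hub3 hG hf h2 (h := b2) hab hac hbc ha hb hc hF (by omega) (by omega) (by omega)

theorem not_one {G : SimpleGraph V} {f : V → ℕ} {a : V} (ha : 0 < f a)
    (hone : ¬ ∃ v, 0 < f v ∧ ∀ w, Und G f w → S G f v w) : ∃ w, Und G f w ∧ ¬ S G f a w := by
  by_contra hcon
  apply hone
  refine ⟨a, ha, fun w hw => ?_⟩
  by_contra hh
  exact hcon ⟨w, hw, hh⟩

theorem raise {G : SimpleGraph V} (hG : G.Connected) {f : V → ℕ}
    (hf : MaxIrredundant G f) {a w : V} (ha : 0 < f a) (hw : Und G f w) (hs : S G f a w) :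
    ∃ u, u ≠ a ∧ 0 < f u ∧ ∀ y ∈ PB G f u, G.dist y a ≤ f a + 1 := by
  obtain ⟨x0, hx0⟩ := hf.2.1 a ha
  exact step_two hf hw (dist_und hG ha hw hx0 (hs x0 hx0))

theorem part_three {G : SimpleGraph V} (hG : G.Connected) [Nontrivial V] {f : V → ℕ}
    (hf : MaxIrredundant G f) (hcard : (univ.filter fun v => 0 < f v).card ≤ 3)
    (h2 : ∀ v, 0 < f v → 2 ≤ f v) : gammaB G ≤ cost f := by
  by_cases hdom : Dominating G f
  · exact gammaB_le hG f hdom
  by_cases hone : ∃ v, 0 < f v ∧ ∀ w, Und G f w → S G f v w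
  · obtain ⟨v, hv, h⟩ := hone
    exact part_one hG hf hv h
  -- three distinct vertices of positive value are all of them
  have hall : ∀ a b c, a ≠ b → a ≠ c → b ≠ c → 0 < f a → 0 < f b → 0 < f c →
      ∀ x, 0 < f x → x = a ∨ x = b ∨ x = c := by
    intro a b c hab hac hbc ha hb hc x hx
    by_contra hcon
    push Not at hcon
    have h4 : ({x, a, b, c} : Finset V) ⊆ univ.filter fun v => 0 < f v := by
      intro y hy
      simp only [mem_insert, mem_singleton] at hy
      rw [mem_filter]
      refine ⟨mem_univ _, ?_⟩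
      rcases hy with rfl | rfl | rfl | rfl <;> assumption
    have hc := card_le_card h4
    rw [card_insert_of_notMem (by simp [hcon.1, hcon.2.1, hcon.2.2]),
      card_insert_of_notMem (by simp [hab, hac]), card_pair hbc] at hc
    omega
  by_cases htwo : ∃ a b, a ≠ b ∧ 0 < f a ∧ 0 < f b ∧ ∀ w, Und G f w → S G f a w ∨ S G f b w
  · obtain ⟨a, b, hab, ha, hb, hF⟩ := htwo
    obtain ⟨w1, hw1, hn1⟩ := not_one ha hone
    obtain ⟨w2, hw2, hn2⟩ := not_one hb hone
    have s1 : S G f b w1 := (hF w1 hw1).resolve_left hn1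
    have s2 : S G f a w2 := (hF w2 hw2).resolve_right hn2
    obtain ⟨c, hca, hc, hPc⟩ := raise hG hf ha hw2 s2
    obtain ⟨d, hdb, hd, hPd⟩ := raise hG hf hb hw1 s1
    by_cases ecb : c = b
    · rw [ecb] at hPc
      exact two_cover hG hf h2 hab ha hb hF s1 hPc
    by_cases eda : d = a
    · rw [eda] at hPd
      exact two_cover hG hf h2 (Ne.symm hab) hb ha (fun w hw => (hF w hw).symm) s2 hPd
    have ecd : d = c := by
      rcases hall a b c hab (Ne.symm hca) (Ne.symm ecb) ha hb hc d hd with e | e | e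
      · exact absurd e eda
      · exact absurd e hdb
      · exact e
    rw [ecd] at hPd
    obtain ⟨y, hy⟩ := hf.2.1 c hc
    have hyc : G.dist y c ≤ f c := hy.1
    exact hub3 hG hf h2 (h := y) hab (Ne.symm hca) (Ne.symm ecb) ha hb hc
      (fun w hw => by
        rcases hF w hw with h' | h'
        · exact Or.inl h'
        · exact Or.inr (Or.inl h')) (hPc y hy) (hPd y hy) (by omega)
  · unfold Dominating at hdom
    push Not at hdom
    obtain ⟨w0, hw0⟩ := hdom
    have hw0' : Und G f w0 := fun ⟨x, hx⟩ => hw0 x hx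
    obtain ⟨a, ha, sa⟩ := step_one hG hf hw0'
    obtain ⟨w1, hw1, hn1⟩ := not_one ha hone
    obtain ⟨b, hb, sb⟩ := step_one hG hf hw1
    have hab : a ≠ b := fun e => hn1 (by rw [e]; exact sb)
    obtain ⟨w2, hw2, hn2, hn3⟩ : ∃ w, Und G f w ∧ ¬ S G f a w ∧ ¬ S G f b w := by
      by_contra hcon
      apply htwo
      refine ⟨a, b, hab, ha, hb, fun w hw => ?_⟩
      by_contra hh
      rw [not_or] at hh
      exact hcon ⟨w, hw, hh.1, hh.2⟩
    obtain ⟨c, hc, sc⟩ := step_one hG hf hw2
    have hac : a ≠ c := fun e => hn2 (by rw [e]; exact sc)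
    have hbc : b ≠ c := fun e => hn3 (by rw [e]; exact sc)
    have hS := hall a b c hab hac hbc ha hb hc
    have hF : ∀ w, Und G f w → S G f a w ∨ S G f b w ∨ S G f c w := by
      intro w hw
      obtain ⟨p, hp, sp⟩ := step_one hG hf hw
      rcases hS p hp with e | e | e
      · rw [e] at sp; exact Or.inl sp
      · rw [e] at sp; exact Or.inr (Or.inl sp)
      · rw [e] at sp; exact Or.inr (Or.inr sp)
    obtain ⟨ua, hua, pua, Pa⟩ := raise hG hf ha hw0' sa
    obtain ⟨ub, hub, pub, Pb⟩ := raise hG hf hb hw1 sb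
    obtain ⟨uc, huc, puc, Pc⟩ := raise hG hf hc hw2 sc
    -- a path p → q → r gives the bound
    rcases hS ua pua with e | e | e
    · exact absurd e hua
    · -- a → b
      rw [e] at Pa
      rcases hS ub pub with e' | e' | e'
      · -- b → a
        rw [e'] at Pb
        rcases hS uc puc with e'' | e'' | e''
        · -- c → a → b
          rw [e''] at Pc
          exact three_path hG hf h2 (a := c) (b := a) (c := b) (wb := w0) (wc := w1)
            hac.symm hbc.symm hab hc ha hb
            (fun x hx => by rcases hS x hx with k | k | k <;> simp [k])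
            (fun w hw => by rcases hF w hw with k | k | k <;> simp [k]) sa sb Pc Pa
        · -- c → b → a
          rw [e''] at Pc
          exact three_path hG hf h2 (a := c) (b := b) (c := a) (wb := w1) (wc := w0)
            hbc.symm hac.symm hab.symm hc hb ha
            (fun x hx => by rcases hS x hx with k | k | k <;> simp [k])
            (fun w hw => by rcases hF w hw with k | k | k <;> simp [k]) sb sa Pc Pb
        · exact absurd e'' huc
      · exact absurd e' hub
      · -- a → b → c
        rw [e'] at Pb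
        exact three_path hG hf h2 (a := a) (b := b) (c := c) (wb := w1) (wc := w2)
            hab hac hbc ha hb hc hS hF sb sc Pa Pb
    · -- a → c
      rw [e] at Pa
      rcases hS uc puc with e' | e' | e'
      · -- c → a
        rw [e'] at Pc
        rcases hS ub pub with e'' | e'' | e''
        · -- b → a → c
          rw [e''] at Pb
          exact three_path hG hf h2 (a := b) (b := a) (c := c) (wb := w0) (wc := w2)
            hab.symm hbc hac hb ha hc
            (fun x hx => by rcases hS x hx with k | k | k <;> simp [k])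
            (fun w hw => by rcases hF w hw with k | k | k <;> simp [k]) sa sc Pb Pa
        · exact absurd e'' hub
        · -- b → c → a
          rw [e''] at Pb
          exact three_path hG hf h2 (a := b) (b := c) (c := a) (wb := w2) (wc := w0)
            hbc hab.symm hac.symm hb hc ha
            (fun x hx => by rcases hS x hx with k | k | k <;> simp [k])
            (fun w hw => by rcases hF w hw with k | k | k <;> simp [k]) sc sa Pb Pc
      · -- a → c → b
        rw [e'] at Pc
        exact three_path hG hf h2 (a := a) (b := c) (c := b) (wb := w2) (wc := w1)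
            hac hab hbc.symm ha hc hb
            (fun x hx => by rcases hS x hx with k | k | k <;> simp [k])
            (fun w hw => by rcases hF w hw with k | k | k <;> simp [k]) sc sb Pa Pc
      · exact absurd e' huc

/-- Let `G` be connected with at least two vertices and `f` a maximal irredundant broadcast of cost
`ir_b`. If `f` is positive at most at three vertices and at least `2` there, then `ir_b = γ_b`. -/
theorem result {V : Type} [Fintype V] [DecidableEq V] [Nontrivial V] (G : SimpleGraph V)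
    (hG : G.Connected) (f : V → ℕ) (hf : MaxIrredundant G f) (hc : cost f = irB G)
    (hcard : (univ.filter fun v => 0 < f v).card ≤ 3) (h2 : ∀ v, 0 < f v → 2 ≤ f v) :
    irB G = gammaB G :=
  le_antisymm (irB_le_gammaB hG) (by rw [← hc]; exact part_three hG hf hcard h2)

end Pool.Agent.Results.MP_e7e1e7_co.FewCentres
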