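import Pool.Agent.BroadcastIrr

set_option autoImplicit false

/-!
# Broadcast irredundance and broadcast domination: one private boundary next to all vertices that hear
nothing
-/

namespace Pool.Agent.Results.MP_e7e1e7_co.OneBoundary

open Pool.Agent.BroadcastIrr

/-- Let `G` be connected with at least two vertices and `f` a maximal irredundant broadcast of cost
`ir_b`. If for some `v` of positive value every vertex that hears nothing is equal or adjacent to every
vertex of the private boundary of `v`, then `ir_b = γ_b`. -/
theorem result {V : Type} [Fintype V] [DecidableEq V] [Nontrivial V] (G : SimpleGraph V)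
    (hG : G.Connected) (f : V → ℕ) (hf : MaxIrredundant G f) (hc : cost f = irB G)
    (h : ∃ v, 0 < f v ∧ ∀ w, Und G f w → ∀ x ∈ PB G f v, G.dist x w ≤ 1) :
    irB G = gammaB G := by
  obtain ⟨v, hv, h⟩ := h
  exact le_antisymm (irB_le_gammaB hG) (by rw [← hc]; exact part_one hG hf hv h)

end Pool.Agent.Results.MP_e7e1e7_co.OneBoundary
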