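import Pool.Agent.Results.MP_e7e1e7_co.FewCentres

set_option autoImplicit false

/-!
# Broadcast irredundance and broadcast domination: two private boundaries next to all vertices that hear
nothing
-/

set_option linter.unusedSectionVars false

namespace Pool.Agent.Results.MP_e7e1e7_co.TwoBoundaries

open Finset Pool.Agent.BroadcastIrr Pool.Agent.Results.MP_e7e1e7_co.FewCentres

variable {V : Type} [Fintype V] [DecidableEq V]

theorem trade {G : SimpleGraph V} (hG : G.Connected) [Nontrivial V] {f : V → ℕ}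
    (hf : MaxIrredundant G f) (h2 : ∀ x, 0 < f x → 2 ≤ f x) {a b c d : V}
    (hab : a ≠ b) (hac : a ≠ c) (hbc : b ≠ c) (had : a ≠ d) (hbd : b ≠ d) (hcd : c ≠ d)
    (ha : 0 < f a) (hb : 0 < f b) (hc : 0 < f c) (hd : 0 < f d)
    (hF : ∀ w, Und G f w → S G f a w ∨ S G f b w)
    (hA : ∀ y ∈ PB G f c, G.dist y a ≤ f a + 1) (hB : ∀ y ∈ PB G f d, G.dist y b ≤ f b + 1)
    (hX : ∀ x, G.dist x c = f c → G.dist x d = f d → ∃ e, e ≠ c ∧ e ≠ d ∧ Hears G f x e) :
    gammaB G ≤ cost f := by
  have hc2 := h2 c hc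
  have hd2 := h2 d hd
  let g : V → ℕ := fun x => if x = a then f x + 1 else if x = b then f x + 1 else
    if x = c then f x - 1 else if x = d then f x - 1 else f x
  have ga : g a = f a + 1 := by simp [g]
  have gb : g b = f b + 1 := by simp [g, hab.symm]
  have gc : g c = f c - 1 := by simp [g, hac.symm, hbc.symm]
  have gd : g d = f d - 1 := by simp [g, had.symm, hbd.symm, hcd.symm]
  have ge : ∀ e, e ≠ c → e ≠ d → f e ≤ g e := by
    intro e h1 h3
    simp only [g, if_neg h1, if_neg h3]
    split_ifs <;> omega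
  have hsum : cost g = cost f := by
    have e1 : ∀ x, g x + ((if x = c then 1 else 0) + (if x = d then 1 else 0)) =
        f x + ((if x = a then 1 else 0) + (if x = b then 1 else 0)) := by
      intro x
      by_cases xa : x = a
      · subst xa; rw [ga]; simp [hac, had, hab]
      by_cases xb : x = b
      · subst xb; rw [gb]; simp [hbc, hbd, xa]
      by_cases xc : x = c
      · subst xc; rw [gc]; simp [hcd, xa, xb]; omega
      by_cases xd : x = d
      · subst xd; rw [gd]; simp [xa, xb, xc]; omega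
      simp [g, xa, xb, xc, xd]
    have e2 : ∑ x, (g x + ((if x = c then 1 else 0) + (if x = d then 1 else 0))) =
        ∑ x, (f x + ((if x = a then 1 else 0) + (if x = b then 1 else 0))) :=
      sum_congr rfl fun x _ => e1 x
    rw [sum_add_distrib, sum_add_distrib, sum_add_distrib, sum_add_distrib] at e2
    simp only [sum_ite_eq', mem_univ, if_true] at e2
    unfold cost
    omega
  rw [← hsum]
  apply gammaB_le hG
  have hdd : ∀ p w, 0 < f p → Und G f w → S G f p w → G.dist w p ≤ f p + 1 := by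
    intro p w hp hw hs
    obtain ⟨x0, hx0⟩ := hf.2.1 p hp
    have h5 := dist_und hG hp hw hx0 (hs x0 hx0)
    have h6 : G.dist w p = G.dist p w := SimpleGraph.dist_comm
    omega
  intro x
  by_cases hx : Und G f x
  · rcases hF x hx with h | h
    · exact ⟨a, by omega, by rw [ga]; exact hdd a x ha hx h⟩
    · exact ⟨b, by omega, by rw [gb]; exact hdd b x hb hx h⟩
  by_cases he : ∃ e, e ≠ c ∧ e ≠ d ∧ Hears G f x e
  · obtain ⟨e, h1, h3, h4, h5⟩ := he
    have h6 := ge e h1 h3
    exact ⟨e, by omega, by omega⟩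
  rcases quad (G := G) f x c with h | ⟨y, hy, hy1, hy2⟩ | h | h
  · exact absurd h hx
  · have hyd : y = d := by
      by_contra hne
      exact he ⟨y, hy, hne, hy1, hy2⟩
    rw [hyd] at hy2
    rcases quad (G := G) f x d with h' | ⟨y', hy', hy1', hy2'⟩ | h' | h'
    · exact absurd h' hx
    · have hyc : y' = c := by
        by_contra hne
        exact he ⟨y', hne, hy', hy1', hy2'⟩
      rw [hyc] at hy2'
      by_cases k1 : G.dist x c ≤ f c - 1
      · exact ⟨c, by omega, by omega⟩
      by_cases k2 : G.dist x d ≤ f d - 1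
      · exact ⟨d, by omega, by omega⟩
      exact absurd (hX x (by omega) (by omega)) he
    · exact ⟨d, by omega, by omega⟩
    · have := hB x h'
      exact ⟨b, by omega, by omega⟩
  · exact ⟨c, by omega, by omega⟩
  · have := hA x h
    exact ⟨a, by omega, by omega⟩

theorem part_four {G : SimpleGraph V} (hG : G.Connected) [Nontrivial V] {f : V → ℕ}
    (hf : MaxIrredundant G f) (h2 : ∀ v, 0 < f v → 2 ≤ f v)
    (hF : ∃ a b, 0 < f a ∧ 0 < f b ∧ ∀ w, Und G f w → S G f a w ∨ S G f b w)
    (hX : ∀ x c d, c ≠ d → 0 < f c → 0 < f d → G.dist x c = f c → G.dist x d = f d →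
      ∃ e, e ≠ c ∧ e ≠ d ∧ Hears G f x e) : gammaB G ≤ cost f := by
  by_cases hone : ∃ v, 0 < f v ∧ ∀ w, Und G f w → S G f v w
  · obtain ⟨v, hv, h⟩ := hone
    exact part_one hG hf hv h
  obtain ⟨a, b, ha, hb, hF⟩ := hF
  obtain ⟨w1, hw1, hn1⟩ := not_one ha hone
  obtain ⟨w2, hw2, hn2⟩ := not_one hb hone
  have s1 : S G f b w1 := (hF w1 hw1).resolve_left hn1
  have s2 : S G f a w2 := (hF w2 hw2).resolve_right hn2
  have hab : a ≠ b := fun e => hn1 (by rw [e]; exact s1)
  obtain ⟨c, hca, hc, hPc⟩ := raise hG hf ha hw2 s2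
  obtain ⟨d, hdb, hd, hPd⟩ := raise hG hf hb hw1 s1
  by_cases ecb : c = b
  · rw [ecb] at hPc
    exact two_cover hG hf h2 hab ha hb hF s1 hPc
  by_cases eda : d = a
  · rw [eda] at hPd
    exact two_cover hG hf h2 (Ne.symm hab) hb ha (fun w hw => (hF w hw).symm) s2 hPd
  by_cases ecd : d = c
  · rw [ecd] at hPd
    obtain ⟨y, hy⟩ := hf.2.1 c hc
    have hyc : G.dist y c ≤ f c := hy.1
    exact hub3 hG hf h2 (h := y) hab (Ne.symm hca) (Ne.symm ecb) ha hb hc
      (fun w hw => by
        rcases hF w hw with h' | h'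
        · exact Or.inl h'
        · exact Or.inr (Or.inl h')) (hPc y hy) (hPd y hy) (by omega)
  · exact trade hG hf h2 hab (Ne.symm hca) (Ne.symm ecb) (Ne.symm eda) (Ne.symm hdb) (Ne.symm ecd)
      ha hb hc hd hF hPc hPd (fun x h1 h3 => hX x c d (Ne.symm ecd) hc hd h1 h3)

/-- Let `G` be connected with at least two vertices and `f` a maximal irredundant broadcast of cost
`ir_b` with all positive values at least `2`. Suppose that the private boundaries of two vertices `a`, `b`
see every vertex that hears nothing, and that every vertex at distance `f c` from `c` and `f d` from `d`,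
`c ≠ d` of positive value, hears `f` from a third vertex. Then `ir_b = γ_b`. -/
theorem result {V : Type} [Fintype V] [DecidableEq V] [Nontrivial V] (G : SimpleGraph V)
    (hG : G.Connected) (f : V → ℕ) (hf : MaxIrredundant G f) (hc : cost f = irB G)
    (h2 : ∀ v, 0 < f v → 2 ≤ f v)
    (hF : ∃ a b, 0 < f a ∧ 0 < f b ∧ ∀ w, Und G f w →
      (∀ x ∈ PB G f a, G.dist x w ≤ 1) ∨ (∀ x ∈ PB G f b, G.dist x w ≤ 1))
    (hX : ∀ x c d, c ≠ d → 0 < f c → 0 < f d → G.dist x c = f c → G.dist x d = f d →
      ∃ e, e ≠ c ∧ e ≠ d ∧ Hears G f x e) :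
    irB G = gammaB G :=
  le_antisymm (irB_le_gammaB hG) (by rw [← hc]; exact part_four hG hf h2 hF hX)

end Pool.Agent.Results.MP_e7e1e7_co.TwoBoundaries
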